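import Mathlib
import Pool.Agent.H14.Sel.GamB

/-!
# WILD (MP_8e9775_nt), chapter A: the Gamma function on vertical lines

`gamma_two`: for `a > 0` the function `‖Γ(a + it)‖` lies between two positive constants times
`(1 + |t|)^(a - 1/2) exp (- π |t| / 2)`.
`gamma_quot`: for `a > 0`, `b > 0`: `‖Γ(a + iu)‖ ≤ C (1 + |t|)^(a - b) exp (B |u - t|) ‖Γ(b + it)‖`.
-/

set_option autoImplicit false

namespace Pool.Agent.H60.WI

open Complex Filter Topology Pool.Agent.H14.Sel

/-- the model of `‖Γ(a + it)‖` -/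
noncomputable def gmod (a t : ℝ) : ℝ := (1 + |t|) ^ (a - 1 / 2) * Real.exp (-(Real.pi / 2 * |t|))

theorem gmod_pos (a t : ℝ) : 0 < gmod a t := by
  have h : 0 < 1 + |t| := by positivity
  unfold gmod
  exact mul_pos (Real.rpow_pos_of_pos h _) (Real.exp_pos _)

private theorem gmod_exp (a t : ℝ) :
    gmod a t = Real.exp ((a - 1 / 2) * Real.log (1 + |t|) - Real.pi / 2 * |t|) := by
  have h : 0 < 1 + |t| := by positivity
  unfold gmod
  rw [Real.rpow_def_of_pos h, ← Real.exp_add]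
  congr 1
  ring

/-- the Stirling function against the model -/
private theorem stir_gmod (a : ℝ) (ha : 0 < a) : ∃ K : ℝ, 0 ≤ K ∧ ∀ t : ℝ, 1 ≤ |t| →
    ‖stir (a + t * I)‖ ≤ Real.exp K * gmod a t ∧ gmod a t ≤ Real.exp K * ‖stir (a + t * I)‖ := by
  refine ⟨|a - 1 / 2| * (Real.log (1 + a) + Real.log 2) + a + |Real.log (2 * Real.pi)| + 1,
    ?_, ?_⟩
  · have h1 : 0 ≤ Real.log (1 + a) := Real.log_nonneg (by linarith)
    have h2 : 0 ≤ Real.log 2 := Real.log_nonneg (by norm_num)
    positivity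
  intro t ht
  have ht0 : t ≠ 0 := by
    rintro rfl
    simp at ht
    linarith
  have h1 := GamB_norm_lower a t
  have hne : ((a : ℂ) + t * I : ℂ) ≠ 0 := by
    intro h
    rw [h, norm_zero] at h1
    linarith
  have hpos : 0 < ‖((a : ℂ) + t * I : ℂ)‖ := norm_pos_iff.2 hne
  have hup : ‖((a : ℂ) + t * I : ℂ)‖ ≤ (1 + a) * (1 + |t|) := by
    refine (norm_add_le _ _).trans ?_
    rw [Complex.norm_real, norm_mul, Complex.norm_real, Complex.norm_I, Real.norm_eq_abs,
      Real.norm_eq_abs, abs_of_pos ha]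
    nlinarith
  have hlow : (1 + |t|) / 2 ≤ ‖((a : ℂ) + t * I : ℂ)‖ := by linarith
  have h1t : (0 : ℝ) < 1 + |t| := by positivity
  have hL1 : Real.log ‖((a : ℂ) + t * I : ℂ)‖ ≤ Real.log (1 + a) + Real.log (1 + |t|) := by
    rw [← Real.log_mul (by linarith) h1t.ne']
    exact Real.log_le_log hpos hup
  have hL2 : Real.log (1 + |t|) - Real.log 2 ≤ Real.log ‖((a : ℂ) + t * I : ℂ)‖ := by
    rw [← Real.log_div h1t.ne' (by norm_num)]
    exact Real.log_le_log (by positivity) hlow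
  have hla : 0 ≤ Real.log (1 + a) := Real.log_nonneg (by linarith)
  have hl2 : 0 ≤ Real.log 2 := Real.log_nonneg (by norm_num)
  have hD : |Real.log ‖((a : ℂ) + t * I : ℂ)‖ - Real.log (1 + |t|)| ≤
      Real.log (1 + a) + Real.log 2 := by
    rw [abs_le]
    constructor <;> linarith
  have hDm : |(a - 1 / 2) * (Real.log ‖((a : ℂ) + t * I : ℂ)‖ - Real.log (1 + |t|))| ≤
      |a - 1 / 2| * (Real.log (1 + a) + Real.log 2) := by
    rw [abs_mul]
    exact mul_le_mul_of_nonneg_left hD (abs_nonneg _)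
  have hDm' := abs_le.1 hDm
  have h4 := GamB_arg_lower' (σ := a) ha ht0
  have h4' := GamB_arg_upper (σ := a) (t := t) ha
  have h5 := abs_le.1 (GamB_inv_re (σ := a) ht)
  have h6 := abs_le.1 (le_refl |Real.log (2 * Real.pi)|)
  have h7 : 0 ≤ |Real.log (2 * Real.pi)| := abs_nonneg _
  have hst := GamB_norm_stir a t hne
  constructor
  · rw [hst, gmod_exp, ← Real.exp_add]
    apply Real.exp_le_exp.2
    nlinarith [hDm'.2]
  · rw [hst, gmod_exp, ← Real.exp_add]
    apply Real.exp_le_exp.2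
    nlinarith [hDm'.1]

/-- two sided bounds for the Gamma function on a vertical line -/
theorem gamma_two (a : ℝ) (ha : 0 < a) : ∃ C : ℝ, 1 ≤ C ∧ ∀ t : ℝ,
    ‖Complex.Gamma (a + t * I)‖ ≤ C * gmod a t ∧ gmod a t ≤ C * ‖Complex.Gamma (a + t * I)‖ := by
  obtain ⟨C0, T0, hT0, h0⟩ := stirling a
  obtain ⟨K, hK, hst⟩ := stir_gmod a ha
  have hre : ∀ t : ℝ, ((a : ℂ) + t * I).re = a := by intro t; simp
  have him : ∀ t : ℝ, ((a : ℂ) + t * I).im = t := by intro t; simp
  have hne : ∀ t : ℝ, Complex.Gamma (a + t * I) ≠ 0 := by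
    intro t
    apply Complex.Gamma_ne_zero_of_re_pos
    rw [hre]
    exact ha
  have hcont : Continuous (fun t : ℝ => Complex.Gamma (a + t * I)) := by
    rw [continuous_iff_continuousAt]
    intro t
    refine ContinuousAt.comp (g := Complex.Gamma) (f := fun t : ℝ => (a : ℂ) + (t : ℂ) * I)
      (GamB_Gamma_contAt ?_) (by fun_prop)
    rw [hre]
    exact ha
  have hgc : Continuous (fun t : ℝ => gmod a t) := by
    unfold gmod
    refine Continuous.mul ?_ (by fun_prop)
    refine Continuous.rpow_const (by fun_prop) ?_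
    intro t
    left
    positivity
  set T : ℝ := max T0 (2 * |C0| + 1) with hT
  have hT1 : 1 ≤ T := le_trans (by linarith) (le_max_left _ _)
  have hc1 : Continuous (fun t : ℝ => ‖Complex.Gamma (a + t * I)‖ / gmod a t) :=
    hcont.norm.div hgc (fun t => (gmod_pos a t).ne')
  have hc2 : Continuous (fun t : ℝ => gmod a t / ‖Complex.Gamma (a + t * I)‖) :=
    hgc.div hcont.norm (fun t => (norm_pos_iff.2 (hne t)).ne')
  obtain ⟨B1, hB1⟩ := (isCompact_Icc (a := -T) (b := T)).exists_bound_of_continuousOn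
    hc1.continuousOn
  obtain ⟨B2, hB2⟩ := (isCompact_Icc (a := -T) (b := T)).exists_bound_of_continuousOn
    hc2.continuousOn
  have hex : 0 < Real.exp K := Real.exp_pos _
  refine ⟨1 + |B1| + |B2| + 2 * Real.exp K, by nlinarith [abs_nonneg B1, abs_nonneg B2], ?_⟩
  intro t
  have hB1' : 0 ≤ |B1| := abs_nonneg _
  have hB2' : 0 ≤ |B2| := abs_nonneg _
  have hg := gmod_pos a t
  have hGp : 0 < ‖Complex.Gamma (a + t * I)‖ := norm_pos_iff.2 (hne t)
  rcases le_total T |t| with h | h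
  · have h1 := h0 (a + t * I) (by rw [hre, abs_of_pos ha])
      (by rw [him]; exact le_trans (le_max_left _ _) h)
    have h2 : 2 * |C0| + 1 ≤ |t| := le_trans (le_max_right _ _) h
    have h3 : |t| ≤ ‖((a : ℂ) + t * I : ℂ)‖ := GamB_norm_lower a t
    have h00 : 0 ≤ |C0| := abs_nonneg C0
    have h4 : C0 / ‖((a : ℂ) + t * I : ℂ)‖ ^ 2 ≤ 1 / 2 := by
      have h5 : 1 ≤ ‖((a : ℂ) + t * I : ℂ)‖ := by linarith
      rw [div_le_div_iff₀ (by positivity) (by norm_num)]
      have h6 : C0 ≤ |C0| := le_abs_self C0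
      nlinarith
    have h5 : ‖Complex.Gamma (a + t * I) / stir (a + t * I) - 1‖ ≤ 1 / 2 := h1.trans h4
    have hs : 0 < ‖stir (a + t * I)‖ := norm_pos_iff.2 (stir_ne_zero _)
    have h6 : Complex.Gamma (a + t * I) =
        (1 + (Complex.Gamma (a + t * I) / stir (a + t * I) - 1)) * stir (a + t * I) := by
      field_simp [stir_ne_zero (a + t * I)]
      ring
    have h7 : ‖Complex.Gamma (a + t * I)‖ =
        ‖1 + (Complex.Gamma (a + t * I) / stir (a + t * I) - 1)‖ * ‖stir (a + t * I)‖ := by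
      rw [← norm_mul, ← h6]
    have h8 : ‖1 + (Complex.Gamma (a + t * I) / stir (a + t * I) - 1)‖ ≤ 3 / 2 := by
      refine (norm_add_le _ _).trans ?_
      rw [norm_one]
      linarith
    have h9 : 1 / 2 ≤ ‖1 + (Complex.Gamma (a + t * I) / stir (a + t * I) - 1)‖ := by
      have := norm_sub_norm_le (1 : ℂ) (-(Complex.Gamma (a + t * I) / stir (a + t * I) - 1))
      rw [norm_one, norm_neg, sub_neg_eq_add] at this
      linarith
    have h10 := hst t (by linarith)
    have h11 : ‖Complex.Gamma (a + t * I)‖ ≤ 2 * ‖stir (a + t * I)‖ := by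
      rw [h7]
      nlinarith
    have h12 : ‖stir (a + t * I)‖ ≤ 2 * ‖Complex.Gamma (a + t * I)‖ := by
      rw [h7]
      nlinarith
    constructor
    · nlinarith [h10.1, h11]
    · nlinarith [h10.2, h12]
  · have hm : t ∈ Set.Icc (-T) T := ⟨by linarith [(abs_le.1 h).1], (abs_le.1 h).2⟩
    have h1 := hB1 t hm
    have h2 := hB2 t hm
    rw [Real.norm_eq_abs, abs_of_nonneg (by positivity), div_le_iff₀ hg] at h1
    rw [Real.norm_eq_abs, abs_of_nonneg (by positivity), div_le_iff₀ hGp] at h2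
    have h3 := le_abs_self B1
    have h4 := le_abs_self B2
    constructor
    · nlinarith
    · nlinarith

/-- The quotient of two values of the Gamma function on two vertical lines. -/
theorem gamma_quot (a b : ℝ) (ha : 0 < a) (hb : 0 < b) : ∃ C : ℝ, 0 < C ∧ ∀ u t : ℝ,
    ‖Complex.Gamma (a + u * I)‖ ≤ C * (1 + |t|) ^ (a - b) *
      Real.exp ((Real.pi / 2 + |a - 1 / 2|) * |u - t|) * ‖Complex.Gamma (b + t * I)‖ := by
  obtain ⟨C1, hC1, h1⟩ := gamma_two a ha
  obtain ⟨C2, hC2, h2⟩ := gamma_two b hb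
  refine ⟨C1 * C2, by positivity, ?_⟩
  intro u t
  have hu := (h1 u).1
  have ht := (h2 t).2
  have hpu : (0 : ℝ) < 1 + |u| := by positivity
  have hpt : (0 : ℝ) < 1 + |t| := by positivity
  have hab : |(|u| - |t|)| ≤ |u - t| := abs_abs_sub_abs_le_abs_sub u t
  have hab' := abs_le.1 hab
  -- comparison of the models
  have key : gmod a u ≤ (1 + |t|) ^ (a - b) *
      Real.exp ((Real.pi / 2 + |a - 1 / 2|) * |u - t|) * gmod b t := by
    rw [gmod_exp, gmod_exp, Real.rpow_def_of_pos hpt, ← Real.exp_add, ← Real.exp_add]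
    apply Real.exp_le_exp.2
    have hl1 : Real.log (1 + |u|) - Real.log (1 + |t|) ≤ |u - t| := by
      rw [← Real.log_div hpu.ne' hpt.ne']
      have h3 : (1 + |u|) / (1 + |t|) ≤ 1 + |u - t| := by
        rw [div_le_iff₀ hpt]
        nlinarith [abs_nonneg t, abs_nonneg (u - t)]
      have h4 := Real.log_le_sub_one_of_pos (show 0 < (1 + |u|) / (1 + |t|) by positivity)
      linarith
    have hl2 : Real.log (1 + |t|) - Real.log (1 + |u|) ≤ |u - t| := by
      rw [← Real.log_div hpt.ne' hpu.ne']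
      have h3 : (1 + |t|) / (1 + |u|) ≤ 1 + |u - t| := by
        rw [div_le_iff₀ hpu]
        nlinarith [abs_nonneg u, abs_nonneg (u - t)]
      have h4 := Real.log_le_sub_one_of_pos (show 0 < (1 + |t|) / (1 + |u|) by positivity)
      linarith
    have hl3 : |Real.log (1 + |u|) - Real.log (1 + |t|)| ≤ |u - t| := by
      rw [abs_le]
      constructor <;> linarith
    have hl4 : |(a - 1 / 2) * (Real.log (1 + |u|) - Real.log (1 + |t|))| ≤
        |a - 1 / 2| * |u - t| := by
      rw [abs_mul]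
      exact mul_le_mul_of_nonneg_left hl3 (abs_nonneg _)
    have hl5 := (abs_le.1 hl4).2
    have hpi := Real.pi_pos
    nlinarith [hab'.1, hab'.2]
  have h0 : 0 ≤ (1 + |t|) ^ (a - b) * Real.exp ((Real.pi / 2 + |a - 1 / 2|) * |u - t|) := by
    positivity
  calc ‖Complex.Gamma (a + u * I)‖ ≤ C1 * gmod a u := hu
    _ ≤ C1 * ((1 + |t|) ^ (a - b) *
      Real.exp ((Real.pi / 2 + |a - 1 / 2|) * |u - t|) * gmod b t) := by gcongr
    _ ≤ C1 * ((1 + |t|) ^ (a - b) *
      Real.exp ((Real.pi / 2 + |a - 1 / 2|) * |u - t|) *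
        (C2 * ‖Complex.Gamma (b + t * I)‖)) := by gcongr
    _ = C1 * C2 * (1 + |t|) ^ (a - b) *
      Real.exp ((Real.pi / 2 + |a - 1 / 2|) * |u - t|) * ‖Complex.Gamma (b + t * I)‖ := by ring

end Pool.Agent.H60.WI
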