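import Pool.Agent.H30.WD.FaDef

/-! [H60 WI DegAdd] the degree is additive, from the exact order of growth on vertical lines -/

set_option autoImplicit false

namespace Pool.Agent.H60.WI

open H11.Selberg Complex Pool.Agent.H30.WD

private theorem f_diff {a : ℕ → ℂ} {F : ℂ → ℂ} (h : IsSelberg a F) {s : ℂ} (hs : s.im ≠ 0) :
    DifferentiableAt ℂ F s := by
  obtain ⟨m, G, hG, -, hF⟩ := h.continuation
  have hs1 : s ≠ 1 := by
    rintro rfl
    simp at hs
  have h1 : F =ᶠ[nhds s] fun z => G z / (z - 1) ^ m := by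
    filter_upwards [isOpen_ne.mem_nhds hs1] with z hz
    rw [hF z hz]
    have : (z - 1) ^ m ≠ 0 := pow_ne_zero _ (sub_ne_zero.2 hz)
    field_simp
  refine DifferentiableAt.congr_of_eventuallyEq ?_ h1
  refine DifferentiableAt.div (hG s) ?_ (pow_ne_zero _ (sub_ne_zero.2 hs1))
  exact (differentiableAt_id.sub_const 1).pow m

/-- a factorisation in the half plane of convergence holds in the upper half plane -/
theorem prod_ext (k : ℕ) (a : ℕ → ℂ) (F : ℂ → ℂ) (h : IsSelberg a F) (f : Fin k → ℕ → ℂ)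
    (Φ : Fin k → ℂ → ℂ) (hf : ∀ i, IsSelberg (f i) (Φ i))
    (hprod : ∀ s : ℂ, 1 < s.re → F s = ∏ i, Φ i s) (s : ℂ) (hs : 0 < s.im) :
    F s = ∏ i, Φ i s := by
  have hU : IsOpen {z : ℂ | 0 < z.im} := isOpen_lt continuous_const Complex.continuous_im
  have hA : AnalyticOnNhd ℂ F {z : ℂ | 0 < z.im} :=
    DifferentiableOn.analyticOnNhd
      (fun z hz => (f_diff h (ne_of_gt hz)).differentiableWithinAt) hU
  have hB : AnalyticOnNhd ℂ (fun z => ∏ i, Φ i z) {z : ℂ | 0 < z.im} :=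
    DifferentiableOn.analyticOnNhd
      (fun z hz => (DifferentiableAt.fun_finsetProd
        (fun i _ => f_diff (hf i) (ne_of_gt hz))).differentiableWithinAt) hU
  have h0 : (⟨2, 1⟩ : ℂ) ∈ {z : ℂ | 0 < z.im} := by
    show (0 : ℝ) < 1
    norm_num
  refine hA.eqOn_of_preconnected_of_eventuallyEq hB
    (convex_halfSpace_im_gt _).isPreconnected h0 ?_ hs
  have h2 : {s : ℂ | 1 < s.re} ∈ nhds (⟨2, 1⟩ : ℂ) := by
    refine (isOpen_lt continuous_const Complex.continuous_re).mem_nhds ?_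
    show (1 : ℝ) < 2
    norm_num
  filter_upwards [h2] with z hz
  exact hprod z hz

private theorem exp_le {c C T α β : ℝ} (hc : 0 < c)
    (h : ∀ t : ℝ, T ≤ t → c * t ^ α ≤ C * t ^ β) : α ≤ β := by
  by_contra hlt
  push Not at hlt
  have h1 := tendsto_rpow_atTop (sub_pos.2 hlt)
  obtain ⟨t, ht⟩ := ((Filter.tendsto_atTop.1 h1 (C / c + 1)).and
    ((Filter.eventually_ge_atTop T).and (Filter.eventually_gt_atTop 0))).exists
  obtain ⟨h2, h3, h4⟩ := ht
  have h5 := h t h3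
  have h6 : t ^ α = t ^ (α - β) * t ^ β := by
    rw [← Real.rpow_add h4]
    congr 1
    ring
  have h7 : 0 < t ^ β := Real.rpow_pos_of_pos h4 β
  rw [h6, ← mul_assoc] at h5
  have h8 : c * t ^ (α - β) ≤ C := le_of_mul_le_mul_right h5 h7
  have h9 : c * (C / c + 1) ≤ C := le_trans (mul_le_mul_of_nonneg_left h2 hc.le) h8
  have h10 : c * (C / c) = C := by
    field_simp
  nlinarith

private theorem max_T (k : ℕ) (T : Fin k → ℝ) : ∃ M : ℝ, 1 ≤ M ∧ ∀ i, T i ≤ M := by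
  refine ⟨1 + ∑ i, |T i|, ?_, fun i => ?_⟩
  · have : 0 ≤ ∑ i, |T i| := Finset.sum_nonneg fun i _ => abs_nonneg _
    linarith
  · have h1 : |T i| ≤ ∑ i, |T i| :=
      Finset.single_le_sum (f := fun i => |T i|) (fun i _ => abs_nonneg _) (Finset.mem_univ i)
    have h2 := le_abs_self (T i)
    linarith

/-- in a product of `k` elements of the class the degrees of the factors add up -/
theorem deg_add_of (hgro : ∀ (a : ℕ → ℂ) (F : ℂ → ℂ) (_ : IsSelberg a F) (d : ℝ)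
    (_ : HasFE F d) (A : ℝ) (_ : 0 < A), ∃ c C T : ℝ, 0 < c ∧ 0 < C ∧ 1 ≤ T ∧
    ∀ t : ℝ, T ≤ |t| →
    c * |t| ^ (d * (1 / 2 + A)) ≤ ‖F (-(A : ℂ) + t * I)‖ ∧
    ‖F (-(A : ℂ) + t * I)‖ ≤ C * |t| ^ (d * (1 / 2 + A)))
    (k : ℕ) (a : ℕ → ℂ) (F : ℂ → ℂ) (h : IsSelberg a F) (f : Fin k → ℕ → ℂ)
    (Φ : Fin k → ℂ → ℂ) (hf : ∀ i, IsSelberg (f i) (Φ i))
    (hprod : ∀ s : ℂ, 1 < s.re → F s = ∏ i, Φ i s) (d : ℝ) (hd : HasFE F d) (e : Fin k → ℝ)
    (he : ∀ i, HasFE (Φ i) (e i)) : d = ∑ i, e i := by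
  obtain ⟨c0, C0, T0, hc0, hC0, hT0, hF⟩ := hgro a F h d hd 1 one_pos
  choose c C T hc hC hT hΦ using fun i => hgro (f i) (Φ i) (hf i) (e i) (he i) 1 one_pos
  obtain ⟨M, hM1, hM⟩ := max_T k T
  have key : ∀ t : ℝ, max T0 M ≤ t →
      F (-((1 : ℝ) : ℂ) + t * I) = ∏ i, Φ i (-((1 : ℝ) : ℂ) + t * I) := by
    intro t ht
    refine prod_ext k a F h f Φ hf hprod _ ?_
    have : (0 : ℝ) < t := by
      have := le_trans (le_max_right T0 M) ht
      linarith
    simpa using this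
  have hpow : ∀ t : ℝ, 0 < t → ∏ i, t ^ (e i * (1 / 2 + 1)) = t ^ ((∑ i, e i) * (1 / 2 + 1)) := by
    intro t ht
    rw [Finset.sum_mul, Real.rpow_sum_of_pos ht]
  have h1 : d * (1 / 2 + 1) ≤ (∑ i, e i) * (1 / 2 + 1) := by
    refine exp_le (T := max T0 M) (C := ∏ i, C i) hc0 fun t ht => ?_
    have ht0 : T0 ≤ t := le_trans (le_max_left _ _) ht
    have htM : M ≤ t := le_trans (le_max_right _ _) ht
    have htp : 0 < t := by linarith
    have h2 := (hF t (by rw [abs_of_pos htp]; exact ht0)).1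
    rw [abs_of_pos htp, key t ht, norm_prod] at h2
    refine le_trans h2 ?_
    rw [← hpow t htp, ← Finset.prod_mul_distrib]
    refine Finset.prod_le_prod (fun i _ => norm_nonneg _) fun i _ => ?_
    have h3 := (hΦ i t (by rw [abs_of_pos htp]; exact le_trans (hM i) htM)).2
    rwa [abs_of_pos htp] at h3
  have h2 : (∑ i, e i) * (1 / 2 + 1) ≤ d * (1 / 2 + 1) := by
    refine exp_le (c := ∏ i, c i) (T := max T0 M) (C := C0) (Finset.prod_pos fun i _ => hc i)
      fun t ht => ?_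
    have ht0 : T0 ≤ t := le_trans (le_max_left _ _) ht
    have htM : M ≤ t := le_trans (le_max_right _ _) ht
    have htp : 0 < t := by linarith
    have h2 := (hF t (by rw [abs_of_pos htp]; exact ht0)).2
    rw [abs_of_pos htp, key t ht, norm_prod] at h2
    refine le_trans ?_ h2
    rw [← hpow t htp, ← Finset.prod_mul_distrib]
    refine Finset.prod_le_prod
      (fun i _ => mul_nonneg (hc i).le (Real.rpow_nonneg htp.le _)) fun i _ => ?_
    have h3 := (hΦ i t (by rw [abs_of_pos htp]; exact le_trans (hM i) htM)).1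
    rwa [abs_of_pos htp] at h3
  linarith

end Pool.Agent.H60.WI
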